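import Pool.Agent.K9h20.OpOwnN

set_option autoImplicit false

/-!
# Operators of order at least three with points which have prime powers of their own

Let `L` be a Fuchsian operator of order `n ≥ 3`, irreducible or not, with rational exponents, any
number of singular points and arbitrary accessory parameters. Let `S` be a set of singular points `x`
at which the differences of the exponents are, modulo the integers, multiples `(c l - c l') θ` of a
rational number `θ = θ x`, with `|c l - c l'| ≤ C`, such that some prime power `P x` divides
exactly the denominator of `θ x`, and its prime does not divide the denominators of the differences of
exponents at the other points. At one of these points let `∑ c l` be prime to `n`. For example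
`C = 1`: at the points of `S` there are only two different exponents modulo the integers, with
multiplicities `h` and `n - h`, `h` prime to `n` at one of them (pseudoreflections for `h = 1`).
Nothing is assumed on the other parts of the denominators and on the number of singular points.

We prove that, if the reductions of `L` have full bases of solutions for almost all primes, or only
for a set of primes of lower density greater than `1 - ε`, then the inequality
`n - 1 - κ ≤ ∑ ∑ {a (e y l - e y (c y))}` holds, with the sum over the exponents `e y l` at the points `y`
outside of `S`, for all conjugates `a` and for all choices of an exponent `e y (c y)` at each of these
points; here `κ = ∑ 2 n² C / P x`. If `κ < 1 / (8 n)` and there are at most two points outside of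
`S` at which the exponents are not all congruent, this is impossible unless there are exactly two such
points and the exponents at both of them are, modulo the integers, arithmetic progressions
`e, e + 1 / n, …, e + (n - 1) / n`. So Grothendieck's conjecture holds for all the other operators of
this kind. The exceptions are necessary for a criterion in terms of the exponents: the local systems
induced from the cyclic covering of degree `n` of the line, ramified at the two points, have such
exponents, and are unitary for all conjugates.

Proof. By the starting result `StableDensity` the conjugate exponents are the weights of semistable
parabolic bundles of degree zero for all `a`; this gives the inequality of line subbundles of degree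
`(n - 1) / n`, for all choices of exponents and all integers congruent modulo `n` to a number that
depends on `a`. Changing `a` modulo a power of the prime at `x` only, one moves
`a θ x` very close to any integer in any given class modulo `n`, which makes the contribution of the
point `x` negligible and removes the condition modulo `n`. For two remaining points the mean of
the sums over the choices of the exponent `e y (c y)` is at most `(n - 1) / 2`, so these sums are
nearly independent of the choice; their differences are the numbers
`n a (e y l - e y l')` modulo the integers, and some conjugate `a` moves a rational number which is
not an integer to a distance at least `1 / 8` from the integers.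
-/

open Polynomial

namespace Pool.Agent.Results.MP_aa40d3_nt.ArithmeticProgressions

open Pool.Agent.W432.WB Pool.Agent.W432.HK Pool.Agent.Y227.SO Pool.Agent.K9h20
open Pool.Agent.N858.PC (allExp)

/-- For all `m ≥ 1` and `n ≥ 3` there is `ε > 0` with the following property. Let `L = ∑ b k ∂ ^ k`
be an operator of order `n` with integral polynomial coefficients, and let `α j`, `j = 1, …, m`, be
algebraic numbers.

(1) Let `L` be Fuchsian with finite singular points among the distinct `α j`, with the rational
exponents `lam j l` at `α j` and `-phi l` at infinity, and let `e = allExp lam phi` be the family of
the exponents at the `m + 1` points. Let `S` be a set of these points, and for `x` in `S` let `θ x`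
be a rational number, `c x l` integers, `p x` a prime number and `k x ≥ 1`, such that
(`StepData e C S θ c p k`): the differences `e x l - e x l'` are congruent to `(c x l - c x l') θ x`
modulo the integers and `|c x l - c x l'| ≤ C`; `p x ^ k x` divides the denominator of `θ x` and
`p x ^ (k x + 1)` does not; `p x` does not divide the denominators of the differences of the exponents
at the points other than `x`; and for one `x` in `S` the sum of the `c x l` is prime to `n`. Let
`κ = cost n C S p k` be the sum of the `2 n² C / p x ^ k x` over `S`. Assume that the following
(`OwnGood e C S p k`) does not hold:

* for all integers `a` prime to the denominators of the `e y l - e y l'`, `y` not in `S`, and for all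
  choices `c'` the sum of the fractional parts of the `a (e y l - e y (c' y))` over all `l` and
  over all `y` not in `S` is at least `n - 1 - κ`; and
* if `κ < 1 / (8 n)` and the set `restN e S` of the points outside of `S` with a difference of
  exponents which is not an integer has at most two elements, then it has exactly two elements, and
  at both of them `n` times the differences of the exponents are integers, but not these differences
  themselves (`Progression`).

Then the hypothesis of Grothendieck's conjecture fails for `L`. More precisely call a prime bad if the
reduction of `L` modulo this prime does not have a full basis of rational solutions; then for all
large `M` at least `ε π(M)` of the primes below `M` are bad, and for every common denominator `N` of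
the exponents all large primes are bad in at least `ε φ(N)` of the classes modulo `N` prime to `N`.

(2) Let all zeros of the leading coefficient `b n ≠ 0` be among the distinct `α j`, and assume that
for arbitrarily large `M` fewer than `ε π(M)` of the primes below `M` are bad. Then `L` is
Fuchsian with rational exponents `lam j l`, `-phi l`, and `OwnGood e C S p k` holds for all data as
in (1). -/
theorem result (m n : ℕ) (hm : 1 ≤ m) (hn : 3 ≤ n) :
    ∃ ε : ℝ, 0 < ε ∧ ∀ (b : Fin (n + 1) → ℤ[X]) (α : Fin m → AlgebraicClosure ℚ),
      (∀ lam phi, FuchsianWith b α lam phi → ∀ (C : ℕ) (S : Finset (Option (Fin m)))
        (θ : Option (Fin m) → ℚ) (c : Option (Fin m) → Fin n → ℤ) (p k : Option (Fin m) → ℕ),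
        StepData (allExp lam phi) C S θ c p k → ¬ OwnGood (allExp lam phi) C S p k →
        ¬ Cond b ∧ ¬ FewBad b ε ∧ ∀ N, CommonDen lam phi N → BadPrimes b N ε) ∧
      (ZerosAmong b α → FewBad b ε → ∃ lam phi, FuchsianWith b α lam phi ∧
        ∀ (C : ℕ) (S : Finset (Option (Fin m)))
        (θ : Option (Fin m) → ℚ) (c : Option (Fin m) → Fin n → ℤ) (p k : Option (Fin m) → ℕ),
        StepData (allExp lam phi) C S θ c p k → OwnGood (allExp lam phi) C S p k) :=
  op_own_n m n hm (by omega)

end Pool.Agent.Results.MP_aa40d3_nt.ArithmeticProgressions
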