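import Pool.Agent.K9h20.OpMult

set_option autoImplicit false

/-!
# Multiples of the exponents by integers which are not prime to the denominators

Let `L` be a Fuchsian operator of order `n` with rational exponents `e` of common denominator `M` and
finite singular points among `m` given points. If the reductions of `L` have full bases of rational
solutions for almost all primes, then by the starting results `WeylInequalities`, `StableDensity` the
conjugate exponents `v e`, `v` prime to `M`, satisfy the Weyl inequalities and are the weights
modulo the integers of a semistable parabolic bundle of parabolic degree zero. The integers `v` are
the classes `-1 / p` of the primes modulo `M`, so that only units modulo `M` are accessible by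
reduction modulo primes.

We prove that there is a natural number `q = q(m, n)`, independent of `L`, such that the same is true
for all integers `v` which are prime to `gcd(M, q)`, and that it is sufficient to assume that the
reductions have full bases of solutions for all primes outside of a set of lower density less than
`ε(m, n)`. The integer `v` may have common factors with `M`: for instance it can be divisible by
the largest divisor `D` of `M` prime to `q`, so that all prime factors of the denominators of the
`v e` divide `q`; or `M` is prime to `q`, and `v` is arbitrary. So the exponents of an operator
satisfying the hypothesis of Grothendieck's conjecture have many good specializations which do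
not correspond to any prime, for all orders, all numbers of singular points, and for reducible as
well as irreducible operators, with algebraic solutions or not. The conjecture (the open implication)
holds for all operators for which one of these multiples is not good.

For operators with a finite monodromy group `G` this reflects Jordan's theorem: `G` has an abelian
normal subgroup `A` of index bounded in terms of `n`, and for `v ≡ 1` modulo the order of `G / A` the
endomorphism `v` of `A` extends to `G`. No such group is available from the hypothesis of the
conjecture. Proof: the set of all conjugates of the exponents of all operators of order `n` with
`m` finite points and few bad classes of primes is covered by finitely many connected torsion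
cosets, all points of which are approximated by elements of this set (starting module
`W432/HK/Gen`), hence all real points of these cosets are good; let `q` be the product of the
denominators of base points of the cosets. If `a` is prime to `M` with `a ≡ v` modulo
`gcd(M, q)` and `a e` is in the coset `C`, then an integral relation `k` of `C` has
`gcd(M, q) ∑ k e ∈ ℤ`, and therefore `v e` is in the coset `C` too.
-/

open Polynomial

namespace Pool.Agent.Results.MP_aa40d3_nt.NonUnitMultiples

open Pool.Agent.W432.WB Pool.Agent.W432.HK Pool.Agent.Y227.SO Pool.Agent.K9h20

/-- For all `m`, `n ≥ 1` there are `ε > 0` and a natural number `q ≥ 1` with the following property.
Let `L = ∑ b k ∂ ^ k` be an operator of order `n` with integral polynomial coefficients, and let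
`α j`, `j = 1, …, m`, be algebraic numbers.

(1) Let `L` be Fuchsian with finite singular points among the distinct `α j`, with the rational
exponents `lam j l` at `α j` and `-phi l` at infinity. Let `M` be a common denominator of the
exponents and let `v` be an integer prime to `gcd (M, q)` such that the numbers `v * lam j l`,
`v * phi l` are not good: they violate one of the Weyl inequalities, or they are not the weights
modulo the integers of a semistable parabolic bundle of parabolic degree zero. Then the hypothesis
of Grothendieck's conjecture fails for `L`. More precisely call a prime `p` bad if the reduction of
`L` modulo `p` does not have a full basis of rational solutions; then for all large `X` at least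
`ε π(X)` of the primes below `X` are bad, and for every common denominator `N` of the exponents all
large primes are bad in at least `ε φ(N)` of the classes modulo `N` prime to `N`.

(2) Let all zeros of `b n ≠ 0` be among the distinct `α j`, and assume that for arbitrarily large
`X` fewer than `ε π(X)` of the primes below `X` are bad. Then `L` is Fuchsian with rational
exponents `lam j l`, `-phi l`, and for every common denominator `M` of the exponents and every
integer `v` prime to `gcd (M, q)` the numbers `v * lam j l`, `v * phi l` are good. -/
theorem result (m n : ℕ) (hm : 1 ≤ m) (hn : 1 ≤ n) :
    ∃ (ε : ℝ) (q : ℕ), 0 < ε ∧ 0 < q ∧
      ∀ (b : Fin (n + 1) → ℤ[X]) (α : Fin m → AlgebraicClosure ℚ),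
        (∀ lam phi, FuchsianWith b α lam phi →
          (∃ (M : ℕ) (v : ℤ), CommonDen lam phi M ∧ IsCoprime v ((M.gcd q : ℕ) : ℤ) ∧
            ¬ GoodMultiple lam phi v) →
          ¬ Cond b ∧ ¬ FewBad b ε ∧ ∀ N, CommonDen lam phi N → BadPrimes b N ε) ∧
        (ZerosAmong b α → FewBad b ε → ∃ lam phi, FuchsianWith b α lam phi ∧
          ∀ M, CommonDen lam phi M → ∀ v : ℤ, IsCoprime v ((M.gcd q : ℕ) : ℤ) →
            GoodMultiple lam phi v) :=
  op_multiples m n hm hn

end Pool.Agent.Results.MP_aa40d3_nt.NonUnitMultiples
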