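import Pool.Agent.K9h20.OpOpp

set_option autoImplicit false

/-!
# Operators of any order with rough differences of exponents at all points but two

Let `L` be a Fuchsian operator of order `n` with rational exponents and `m + 1` singular points,
irreducible or not. Suppose that at all points other than `y` and `z` the denominators of the
differences of the exponents have only prime factors above an explicit bound, which depends on `n`
and `m` only; nothing is assumed on the denominators at `y` and `z`. Let `D` be a number with prime
factors above the bound which clears the denominators away from `y`, `z`, and the parts of the
denominators at `y`, `z` which are not prime to it. We prove: if the reductions of `L` have full bases of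
rational solutions for all primes outside of a set of lower density less than `ε(n, m)`, then the
exponents at `y` and at `z` are opposite modulo `1 / D` up to a translation, with multiplicities.
(For an operator with a finite monodromy group this expresses that the elements of the
monodromy group whose orders have only large prime factors are in a diagonalizable normal
subgroup.) So the conjecture of Grothendieck holds for all operators of this kind without opposite
exponents, for example if the differences of the exponents at only one point have denominators with
a prime factor below the bound, or if the multiplicities at `y` and `z` differ.

Proof. If the reductions have full bases of solutions for sufficiently many primes, then for every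
`a` prime to the common denominator the conjugate exponents `a e` are weights modulo the integers of
a semistable parabolic bundle of parabolic degree zero (starting result `StableDensity`), and so
satisfy the inequalities for line subbundles. By Dirichlet's approximation theorem some `t` below
the bound brings the `D`-parts of all differences close to integers, and `t` is prime to `D`. Some
conjugate of the product of the numbers `1 - ζ`, where `ζ` runs over the roots of unity `≠ 1`
belonging to the `E`-parts of the sums of a difference of exponents at `y` and one at `z`, has
absolute value at least one; this gives `a₀` prime to `E` which keeps these sums away from the
integers. Take `a ≡ t` modulo `D`, `a ≡ a₀` modulo `E`. The inequalities for `a` and for `-a`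
compare the number of exponents in any short arc at `y` with the number of those in the opposite
arc at `z`, and a matching argument finishes the proof.
-/

open Polynomial

namespace Pool.Agent.Results.MP_aa40d3_nt.OppositeExponents

open Pool.Agent.W432.WB Pool.Agent.W432.HK Pool.Agent.Y227.SO Pool.Agent.K9h20
open Pool.Agent.N858.PC (allExp)

/-- For all `m`, `n ≥ 1` there is `ε > 0` with the following property. Let `L = ∑ b k ∂ ^ k` be an
operator of order `n` with integral polynomial coefficients, let `α j`, `j = 1, …, m`, be algebraic
numbers.

(1) Let `L` be Fuchsian with finite singular points among the distinct `α j`, with the rational
exponents `lam j l` at `α j` and `-phi l` at infinity. Let `y ≠ z` be two of the `m + 1` points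
`α j`, infinity, and let `D`, `E` be coprime natural numbers such that all prime factors of `D` are
greater than `(2 ^ (n ^ 4 + 5) * (n + 1) * (m + 3)) ^ ((m + 1) * n ^ 2)`, `D` times the differences
of the exponents at the points other than `y`, `z` are integers, and `D * E` times all
differences of exponents (of the same point) are integers. Suppose that there is no permutation `σ`
such that the sums of the `l`-th exponent at `y` and of the `σ l`-th exponent at `z` are congruent
to each other modulo `(1 / D) ℤ` for all `l`. Then the hypothesis of Grothendieck's conjecture fails
for `L`. More precisely call a prime `p` bad if the reduction of `L` modulo `p` does not have a full
basis of rational solutions; then for all large `M` at least `ε π(M)` of the primes below `M` are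
bad, and for every common denominator `N` of the exponents all large primes are bad in at least
`ε φ(N)` of the classes modulo `N` prime to `N`.

(2) Let all zeros of `b n ≠ 0` be among the distinct `α j`, and assume that for arbitrarily large
`M` fewer than `ε π(M)` of the primes below `M` are bad. Then `L` is Fuchsian with rational
exponents, and these are opposite as in (1) for all `y ≠ z`, `D`, `E` as in (1). -/
theorem result (m n : ℕ) (hm : 1 ≤ m) (hn : 1 ≤ n) :
    ∃ ε : ℝ, 0 < ε ∧ ∀ (b : Fin (n + 1) → ℤ[X]) (α : Fin m → AlgebraicClosure ℚ),
      (∀ lam phi, FuchsianWith b α lam phi → ∀ (y z : Option (Fin m)) (D E : ℕ), y ≠ z →
        RoughAway y z D E (allExp lam phi) →
        ¬ Opposite D (allExp lam phi y) (allExp lam phi z) →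
        ¬ Cond b ∧ ¬ FewBad b ε ∧ ∀ N, CommonDen lam phi N → BadPrimes b N ε) ∧
      (ZerosAmong b α → FewBad b ε → ∃ lam phi, FuchsianWith b α lam phi ∧
        ∀ (y z : Option (Fin m)) (D E : ℕ), y ≠ z → RoughAway y z D E (allExp lam phi) →
          Opposite D (allExp lam phi y) (allExp lam phi z)) :=
  op_opposite m n hm hn

end Pool.Agent.Results.MP_aa40d3_nt.OppositeExponents
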