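import Pool.Agent.K9h20.OpOwn

set_option autoImplicit false

/-!
# Operators of order two with differences of exponents which have prime powers of their own

Let `L` be a Fuchsian operator of order two, irreducible or not, with rational exponents, any number
of singular points and arbitrary accessory parameters, and let `θ x` be the difference of the
exponents at the point `x`. Let `S` be a nonempty set of points `x` such that a prime number `p x`
divides the denominator of `θ x` but not the denominators of the differences at the other points, with
exact power `P x`, and assume `∑ 2 / P x ≤ 1 / 46` (for one point: `P x ≥ 92`). Nothing is assumed
on the remaining part of the denominators. Assume that outside of `S` there are at most three points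
with a difference which is not an integer. For example `L` has four singular points (Heun equations)
and one of the four differences has a prime power `≥ 92` of its own; or it has many points, and all
but three of the differences have large prime powers of their own. Most tuples of denominators have
this property; for fewer than three remaining points it is even sufficient for most.

We prove that Grothendieck's conjecture holds for `L`, and that the reductions of `L` do not have full
bases of solutions for a set of primes of positive lower density, unless outside of `S` there are
* two such points, both with a difference in `1/2 + ℤ` (dihedral groups), or
* three such points, and the differences are, up to order, signs and integers,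
  `(1/2, 1/2, r)`, `(1/2, r, 1/2 - r)`, `(1/3, 1/3, 1/3)`, `(1/2, 1/3, 1/3)`, `(1/2, 1/3, 1/4)`,
  `(1/2, 1/3, 1/5)`, `(1/2, 1/3, 2/5)` or `(1/2, 1/5, 2/5)`.
In the exceptional cases the local exponents alone do not decide: for all conjugates they are the
exponents of unitary local systems.

Proof. By the starting result `StableDensity` the conjugate exponents are weights of semistable
parabolic bundles for all `a`, so the points `(a θ x)` have `l¹`-distance at least one from all
integral points of the wrong parity. Changing `a` modulo a power of `p x` only, one moves
`a θ x` to a distance at most `2 / P x` from an integer of any given parity. Hence the sum of the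
distances of the `a θ y`, `y` not in `S`, to the nearest integers is at least `45 / 46` for all `a`.
For one `θ y` in `1/2 + ℤ` the numbers `2 cos (2π a θ) + 2 cos (2π a θ')` for the two other ones are
at most `0.278`; an algebraic integer all of whose conjugates are real and at most `0.278` is zero or
has mean at most `-1` (as `t + 1 + log |t| ≤ 0`), and the means of cosines are quotients of the
functions of Möbius and Euler. If there are no halves, the sum of the three cosines is at most
`-0.8` for all `a`, and the mean shows that there is a third.
-/

open Polynomial

namespace Pool.Agent.Results.MP_aa40d3_nt.OwnPrimePowers

open Pool.Agent.W432.WB Pool.Agent.W432.HK Pool.Agent.Y227.SO Pool.Agent.K9h20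
open Pool.Agent.N858.PC (allExp)

/-- For every `m ≥ 1` there is `ε > 0` with the following property. Let `L = ∑ b k ∂ ^ k` be an
operator of order two with integral polynomial coefficients, and let `α j`, `j = 1, …, m`, be
algebraic numbers.

(1) Let `L` be Fuchsian with finite singular points among the distinct `α j`, with the rational
exponents `lam j l` at `α j` and `-phi l` at infinity, and let `θ = dif (allExp lam phi)` be the
family of the `m + 1` differences of the exponents at the points `α j` and infinity. Let `S` be a
nonempty set of points `x` such that the prime number `p x` divides the denominator of `θ x`, with
exact power `p x ^ k x`, and does not divide the denominators of the other differences, such that the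
sum of the `2 / p x ^ k x` over `S` is at most `1 / 46`, and such that at most three points
outside of `S` have a difference which is not an integer (`OwnPowers`). Let `rest` be the set of
these two or three or less points. Assume that they are not exceptional, where `Exceptional` means:
there are two points in `rest`, with both differences in `1/2 + ℤ`, or three points in `rest`,
and their differences are, up to order, signs and integers, of the form `(1/2, 1/2, r)`,
`(1/2, r, 1/2 - r)`, `(1/3, 1/3, 1/3)`, `(1/2, 1/3, 1/3)`, `(1/2, 1/3, 1/4)`, `(1/2, 1/3, 1/5)`,
`(1/2, 1/3, 2/5)` or `(1/2, 1/5, 2/5)`. Then the hypothesis of Grothendieck's conjecture fails for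
`L`. More precisely call a prime bad if the reduction of `L` modulo this prime does not have a full
basis of rational solutions; then for all large `M` at least `ε π(M)` of the primes below `M` are
bad, and for every common denominator `N` of the exponents all large primes are bad in at least
`ε φ(N)` of the classes modulo `N` prime to `N`.

(2) Let all zeros of the leading coefficient `b 2 ≠ 0` be among the distinct `α j`, and assume that
for arbitrarily large `M` fewer than `ε π(M)` of the primes below `M` are bad. Then `L` is
Fuchsian with rational exponents `lam j l`, `-phi l`, and for all `S`, `p`, `k` as in (1) the points
in `rest` are exceptional. -/
theorem result (m : ℕ) (hm : 1 ≤ m) :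
    ∃ ε : ℝ, 0 < ε ∧ ∀ (b : Fin 3 → ℤ[X]) (α : Fin m → AlgebraicClosure ℚ),
      (∀ lam phi, FuchsianWith b α lam phi → ∀ (S : Finset (Option (Fin m)))
        (p k : Option (Fin m) → ℕ), OwnPowers (dif (allExp lam phi)) S p k →
        ¬ Exceptional (dif (allExp lam phi)) (rest (dif (allExp lam phi)) S) →
        ¬ Cond b ∧ ¬ FewBad b ε ∧ ∀ N, CommonDen lam phi N → BadPrimes b N ε) ∧
      (ZerosAmong b α → FewBad b ε → ∃ lam phi, FuchsianWith b α lam phi ∧
        ∀ (S : Finset (Option (Fin m))) (p k : Option (Fin m) → ℕ),
          OwnPowers (dif (allExp lam phi)) S p k →
          Exceptional (dif (allExp lam phi)) (rest (dif (allExp lam phi)) S)) :=
  op_own m hm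

end Pool.Agent.Results.MP_aa40d3_nt.OwnPrimePowers
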